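import Mathlib

/-!
# Local analysis: the neighbourhood graph of a vertex in a `K_4`-free double-critical
6-chromatic graph.

`Loc H` lists the properties of `H = G[N(x)]` that are used:
triangle-free, all degrees at least 4, no neighbourhood contained in another one and,
for every vertex `a`, a 4-colouring of `H - a` in which all four colours occur on `N(a)`.
-/

set_option autoImplicit false

namespace Pool.Agent.H15.DC

open Finset Classical

variable {α : Type*} [Fintype α] {H : SimpleGraph α}

/-- The properties of the neighbourhood graph that are used in the local analysis. -/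
structure Loc (H : SimpleGraph α) : Prop where
  tf : ∀ a b c, H.Adj a b → H.Adj b c → H.Adj a c → False
  d4 : ∀ a, 4 ≤ (H.neighborFinset a).card
  ac : ∀ a b, a ≠ b → ∃ v, H.Adj a v ∧ ¬ H.Adj b v
  rb : ∀ a, ∃ c : α → Fin 4, (∀ u v, H.Adj u v → u ≠ a → v ≠ a → c u ≠ c v) ∧
    ∀ i, ∃ v, H.Adj a v ∧ c v = i

/-- the set of vertices outside `N(y) ∪ N(z)` -/
noncomputable def Rst (H : SimpleGraph α) (y z : α) : Finset α :=
  univ.filter (fun v => ¬ H.Adj y v ∧ ¬ H.Adj z v)

lemma card_split (hH : Loc H) {y z : α} (hyz : H.Adj y z) :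
    Fintype.card α = (H.neighborFinset y).card + (H.neighborFinset z).card + (Rst H y z).card := by
  have hd : Disjoint (H.neighborFinset y) (H.neighborFinset z) := by
    rw [Finset.disjoint_left]
    intro v h1 h2
    rw [SimpleGraph.mem_neighborFinset] at h1 h2
    exact hH.tf y z v hyz h2 h1
  have hd2 : Disjoint (H.neighborFinset y ∪ H.neighborFinset z) (Rst H y z) := by
    rw [Finset.disjoint_left]
    intro v h1 h2
    simp only [Finset.mem_union, SimpleGraph.mem_neighborFinset] at h1
    simp only [Rst, Finset.mem_filter, Finset.mem_univ, true_and] at h2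
    tauto
  have hu : (univ : Finset α) = (H.neighborFinset y ∪ H.neighborFinset z) ∪ Rst H y z := by
    ext v
    simp only [Rst, Finset.mem_univ, Finset.mem_union, SimpleGraph.mem_neighborFinset,
      Finset.mem_filter, true_and, true_iff]
    tauto
  rw [← Finset.card_univ, hu, Finset.card_union_of_disjoint hd2, Finset.card_union_of_disjoint hd]

/-- a vertex of `N(y) - z` has a neighbour in the rest. -/
lemma exists_rest (hH : Loc H) {y z a : α} (hya : H.Adj y a) (haz : a ≠ z) :
    ∃ v, v ∈ Rst H y z ∧ H.Adj a v := by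
  obtain ⟨v, h1, h2⟩ := hH.ac a z haz
  refine ⟨v, ?_, h1⟩
  simp only [Rst, Finset.mem_filter, Finset.mem_univ, true_and]
  exact ⟨fun h => hH.tf y a v hya h1 h, h2⟩

lemma Rst_comm (y z : α) : Rst H y z = Rst H z y := by
  ext v; simp only [Rst, Finset.mem_filter, Finset.mem_univ, true_and]; tauto

lemma exists_mem_ne (hH : Loc H) (y z : α) : ∃ a, H.Adj y a ∧ a ≠ z := by
  have h1 : 0 < ((H.neighborFinset y).erase z).card := by
    have := hH.d4 y
    have h2 := Finset.pred_card_le_card_erase (s := H.neighborFinset y) (a := z)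
    omega
  obtain ⟨a, ha⟩ := Finset.card_pos.mp h1
  rw [Finset.mem_erase, SimpleGraph.mem_neighborFinset] at ha
  exact ⟨a, ha.2, ha.1⟩

lemma rest_two (hH : Loc H) {y z : α} (hyz : H.Adj y z) : 2 ≤ (Rst H y z).card := by
  by_contra hcon
  obtain ⟨a, hya, haz⟩ := exists_mem_ne hH y z
  obtain ⟨r, hr, har⟩ := exists_rest hH hya haz
  have hR : ∀ v ∈ Rst H y z, v = r := by
    intro v hv
    have h1 : (Rst H y z).card ≤ 1 := by omega
    exact Finset.card_le_one.mp h1 v hv r hr
  have hsub : H.neighborFinset a ⊆ {y, r} := by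
    intro v hv
    rw [SimpleGraph.mem_neighborFinset] at hv
    rw [Finset.mem_insert, Finset.mem_singleton]
    by_contra hne
    push Not at hne
    have h1 : ¬ H.Adj y v := fun h => hH.tf y a v hya hv h
    have h2 : H.Adj z v := by
      by_contra h2
      exact hne.2 (hR v (by simp only [Rst, Finset.mem_filter, Finset.mem_univ, true_and]; exact ⟨h1, h2⟩))
    obtain ⟨r', hr', hvr'⟩ := exists_rest hH h2 hne.1
    rw [Rst_comm] at hr'
    rw [hR r' hr'] at hvr'
    exact hH.tf a v r hv hvr' har
  have h3 := Finset.card_le_card hsub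
  have h4 := hH.d4 a
  have h5 : ({y, r} : Finset α).card ≤ 2 := Finset.card_le_two
  omega

/-- (C): adjacent vertices have degree sum at most `d - 2`. -/
lemma deg_add (hH : Loc H) {y z : α} (hyz : H.Adj y z) :
    (H.neighborFinset y).card + (H.neighborFinset z).card + 2 ≤ Fintype.card α := by
  have h1 := card_split hH hyz
  have h2 := rest_two hH hyz
  omega

/-- The situation `|R| = 2`. -/
structure Two (H : SimpleGraph α) (y z r s : α) : Prop where
  yz : H.Adj y z
  cov : ∀ v, H.Adj y v ∨ H.Adj z v ∨ v = r ∨ v = s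
  yr : ¬ H.Adj y r
  zr : ¬ H.Adj z r
  ys : ¬ H.Adj y s
  zs : ¬ H.Adj z s
  rs : r ≠ s

lemma Two.swapyz {y z r s : α} (h : Two H y z r s) : Two H z y r s :=
  ⟨h.yz.symm, fun v => by rcases h.cov v with h1 | h1 | h1 | h1 <;> tauto, h.zr, h.yr, h.zs, h.ys, h.rs⟩

lemma Two.swaprs {y z r s : α} (h : Two H y z r s) : Two H y z s r :=
  ⟨h.yz, fun v => by rcases h.cov v with h1 | h1 | h1 | h1 <;> tauto, h.ys, h.zs, h.yr, h.zr, h.rs.symm⟩

lemma Two.adj_or (hH : Loc H) {y z r s : α} (h : Two H y z r s) {a : α} (hya : H.Adj y a)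
    (haz : a ≠ z) : H.Adj a r ∨ H.Adj a s := by
  obtain ⟨v, h1, h2⟩ := hH.ac a z haz
  rcases h.cov v with h3 | h3 | h3 | h3
  · exact (hH.tf y a v hya h1 h3).elim
  · exact (h2 h3).elim
  · left; rw [← h3]; exact h1
  · right; rw [← h3]; exact h1

lemma Two.not_both (hH : Loc H) {y z r s : α} (h : Two H y z r s) {a : α} (hya : H.Adj y a)
    (har : H.Adj a r) (has : H.Adj a s) : False := by
  have hsub : H.neighborFinset a ⊆ {y, r, s} := by
    intro v hv
    rw [SimpleGraph.mem_neighborFinset] at hv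
    simp only [Finset.mem_insert, Finset.mem_singleton]
    by_contra hne
    push Not at hne
    obtain ⟨hvy, hvr, hvs⟩ := hne
    rcases h.cov v with h3 | h3 | h3 | h3
    · exact (hH.tf y a v hya hv h3).elim
    · rcases h.swapyz.adj_or hH h3 hvy with h4 | h4
      · exact hH.tf a v r hv h4 har
      · exact hH.tf a v s hv h4 has
    · exact hvr h3
    · exact hvs h3
  have h3 := Finset.card_le_card hsub
  have h4 := hH.d4 a
  have h5 : ({y, r, s} : Finset α).card ≤ 3 := Finset.card_le_three
  omega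

/-- If some `a ∈ N(y) - z` is adjacent to `r`, then at least two vertices of `N(z) - y` are
adjacent to `s`. -/
lemma Two.two_le (hH : Loc H) {y z r s : α} (h : Two H y z r s) {a : α} (hya : H.Adj y a)
    (har : H.Adj a r) :
    2 ≤ (univ.filter (fun b => H.Adj z b ∧ b ≠ y ∧ H.Adj b s)).card := by
  have hsub : H.neighborFinset a ⊆ {y, r} ∪ univ.filter (fun b => H.Adj z b ∧ b ≠ y ∧ H.Adj b s) := by
    intro v hv
    rw [SimpleGraph.mem_neighborFinset] at hv
    simp only [Finset.mem_insert, Finset.mem_singleton, Finset.mem_union, Finset.mem_filter,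
      Finset.mem_univ, true_and]
    by_contra hne
    push Not at hne
    obtain ⟨⟨hvy, hvr⟩, hvs⟩ := hne
    rcases h.cov v with h3 | h3 | h3 | h3
    · exact (hH.tf y a v hya hv h3).elim
    · rcases h.swapyz.adj_or hH h3 hvy with h4 | h4
      · exact hH.tf a v r hv h4 har
      · exact hvs h3 hvy h4
    · exact hvr h3
    · subst h3
      exact h.not_both hH hya har hv
  have h3 := Finset.card_le_card hsub
  have h4 := hH.d4 a
  have h5 : ({y, r} : Finset α).card ≤ 2 := Finset.card_le_two
  have h6 := Finset.card_union_le ({y, r} : Finset α)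
    (univ.filter (fun b => H.Adj z b ∧ b ≠ y ∧ H.Adj b s))
  omega

/-- If both kinds of vertices occur in `N(y) - z`, then `y` has degree at least 5 once each
kind occurs twice. -/
lemma Two.five_le {y z r s : α} (hH : Loc H) (h : Two H y z r s)
    (h1 : 2 ≤ (univ.filter (fun b => H.Adj y b ∧ b ≠ z ∧ H.Adj b r)).card)
    (h2 : 2 ≤ (univ.filter (fun b => H.Adj y b ∧ b ≠ z ∧ H.Adj b s)).card) :
    5 ≤ (H.neighborFinset y).card := by
  set A := univ.filter (fun b => H.Adj y b ∧ b ≠ z ∧ H.Adj b r) with hA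
  set B := univ.filter (fun b => H.Adj y b ∧ b ≠ z ∧ H.Adj b s) with hB
  have hdis : Disjoint A B := by
    rw [Finset.disjoint_left]
    intro v hv1 hv2
    rw [hA, Finset.mem_filter] at hv1
    rw [hB, Finset.mem_filter] at hv2
    exact h.not_both hH hv1.2.1 hv1.2.2.2 hv2.2.2.2
  have hsub : insert z (A ∪ B) ⊆ H.neighborFinset y := by
    intro v hv
    rw [Finset.mem_insert, Finset.mem_union, hA, hB, Finset.mem_filter, Finset.mem_filter] at hv
    rw [SimpleGraph.mem_neighborFinset]
    rcases hv with hv | hv | hv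
    · rw [hv]; exact h.yz
    · exact hv.2.1
    · exact hv.2.1
  have hz : z ∉ A ∪ B := by
    rw [Finset.mem_union, hA, hB, Finset.mem_filter, Finset.mem_filter]
    rintro (hv | hv)
    · exact hv.2.2.1 rfl
    · exact hv.2.2.1 rfl
  have h3 := Finset.card_le_card hsub
  rw [Finset.card_insert_of_notMem hz, Finset.card_union_of_disjoint hdis] at h3
  omega

/-- The bipartite case. -/
structure Bip (H : SimpleGraph α) (P Q : Finset α) : Prop where
  pq : ∀ p ∈ P, ∀ v, H.Adj p v → v ∈ Q
  qp : ∀ q ∈ Q, ∀ v, H.Adj q v → v ∈ P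

lemma Bip.swap {P Q : Finset α} (h : Bip H P Q) : Bip H Q P := ⟨h.qp, h.pq⟩

lemma Bip.miss (hH : Loc H) {P Q : Finset α} (h : Bip H P Q) (hP : 5 ≤ P.card) {p : α}
    (hp : p ∈ P) : ∃ q ∈ Q, ¬ H.Adj p q := by
  have h1 : 0 < (P.erase p).card := by rw [Finset.card_erase_of_mem hp]; omega
  obtain ⟨p', hp'⟩ := Finset.card_pos.mp h1
  rw [Finset.mem_erase] at hp'
  obtain ⟨v, hv1, hv2⟩ := hH.ac p' p hp'.1
  exact ⟨v, h.pq p' hp'.2 v hv1, hv2⟩

lemma Bip.nbr_eq (hH : Loc H) {P Q : Finset α} (h : Bip H P Q) (hQ : Q.card = 5) {p q : α}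
    (hp : p ∈ P) (hq : q ∈ Q) (hpq : ¬ H.Adj p q) : H.neighborFinset p = Q.erase q := by
  apply Finset.eq_of_subset_of_card_le
  · intro v hv
    rw [SimpleGraph.mem_neighborFinset] at hv
    rw [Finset.mem_erase]
    refine ⟨?_, h.pq p hp v hv⟩
    rintro rfl
    exact hpq hv
  · rw [Finset.card_erase_of_mem hq, hQ]
    exact hH.d4 p

lemma Bip.card_le (hH : Loc H) {P Q : Finset α} (h : Bip H P Q) (hP : 5 ≤ P.card)
    (hQ : Q.card = 5) : P.card ≤ 5 := by
  by_contra hcon
  have h1 : ∀ p ∈ P, ∃ q ∈ Q, ¬ H.Adj p q := fun p hp => h.miss hH hP hp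
  choose! f hf1 hf2 using h1
  obtain ⟨p, hp, p', hp', hne, heq⟩ := Finset.exists_ne_map_eq_of_card_lt_of_maps_to
    (s := P) (t := Q) (f := f) (by omega) (fun p hp => hf1 p hp)
  have e1 := h.nbr_eq hH hQ hp (hf1 p hp) (hf2 p hp)
  have e2 := h.nbr_eq hH hQ hp' (hf1 p' hp') (hf2 p' hp')
  rw [heq, ← e2] at e1
  obtain ⟨v, hv1, hv2⟩ := hH.ac p p' hne
  rw [← SimpleGraph.mem_neighborFinset, e1, SimpleGraph.mem_neighborFinset] at hv1
  exact hv2 hv1

/-- `K_{5,5}` minus a perfect matching is impossible. -/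
lemma Bip.false (hH : Loc H) {P Q : Finset α} (h : Bip H P Q) (hP : P.card = 5)
    (hQ : Q.card = 5) {y s : α} (hy : y ∈ Q) (hs : s ∈ P) (hys : ¬ H.Adj y s) : False := by
  obtain ⟨c, hc, hrb⟩ := hH.rb y
  obtain ⟨p0, hp0, hcp0⟩ := hrb (c s)
  have hp0P : p0 ∈ P := h.qp y hy p0 hp0
  obtain ⟨q0, hq0, hpq0⟩ := h.miss hH (by omega) hp0P
  have hq0y : q0 ≠ y := by rintro rfl; exact hpq0 hp0.symm
  have e1 := h.swap.nbr_eq hH hP hq0 hp0P (fun h' => hpq0 h'.symm)
  have hsp0 : s ≠ p0 := by rintro rfl; exact hys hp0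
  have hsy : s ≠ y := by
    rintro rfl
    obtain ⟨v, hv⟩ : ∃ v, H.Adj s v := by
      have := hH.d4 s
      obtain ⟨v, hv⟩ := Finset.card_pos.mp (by omega : 0 < (H.neighborFinset s).card)
      exact ⟨v, by rwa [SimpleGraph.mem_neighborFinset] at hv⟩
    -- `s = y` lies in both `P` and `Q`
    have hA : H.neighborFinset s ⊆ P ∩ Q := by
      intro v hv
      rw [SimpleGraph.mem_neighborFinset] at hv
      rw [Finset.mem_inter]
      exact ⟨h.qp s hy v hv, h.pq s hs v hv⟩
    have hsq : H.Adj q0 s := by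
      rw [← SimpleGraph.mem_neighborFinset, e1, Finset.mem_erase]
      exact ⟨hsp0, hs⟩
    -- colour of p0 equals colour of s, but c s is arbitrary: use another neighbour
    have hq0' : q0 ∈ P := h.qp s hy q0 hsq.symm
    have hp0Q : p0 ∈ Q := h.pq s hs p0 hp0
    have hp0P' : p0 ∈ P := hp0P
    have e2 := h.nbr_eq hH hQ hp0P hq0 hpq0
    have e3 : H.Adj p0 s := hp0.symm
    -- P ∩ Q contains s, p0, q0 and the common structure forces a triangle
    have e4 : H.neighborFinset s ⊆ P := fun v hv => (Finset.mem_inter.mp (hA hv)).1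
    have e5 : H.neighborFinset s ⊆ Q := fun v hv => (Finset.mem_inter.mp (hA hv)).2
    -- q0 is adjacent to every element of P except p0, in particular to a second neighbour of s
    obtain ⟨v2, hv2, hv2p⟩ : ∃ v2, H.Adj s v2 ∧ v2 ≠ q0 ∧ v2 ≠ p0 := by
      have := hH.d4 s
      have h7 : 0 < ((H.neighborFinset s) \ {q0, p0}).card := by
        have h8 := Finset.le_card_sdiff ({q0, p0} : Finset α) (H.neighborFinset s)
        have h9 : ({q0, p0} : Finset α).card ≤ 2 := Finset.card_le_two
        omega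
      obtain ⟨v2, hv2⟩ := Finset.card_pos.mp h7
      simp only [Finset.mem_sdiff, SimpleGraph.mem_neighborFinset, Finset.mem_insert,
        Finset.mem_singleton, not_or] at hv2
      exact ⟨v2, hv2.1, hv2.2.1, hv2.2.2⟩
    have hq0v2 : H.Adj q0 v2 := by
      rw [← SimpleGraph.mem_neighborFinset, e1, Finset.mem_erase]
      exact ⟨hv2p.2, h.qp s hy v2 hv2⟩
    exact hH.tf s q0 v2 hsq.symm hq0v2 hv2
  have hsq0 : H.Adj q0 s := by
    rw [← SimpleGraph.mem_neighborFinset, e1, Finset.mem_erase]
    exact ⟨hsp0, hs⟩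
  have hcq0 : c q0 = c s := by
    by_contra hne
    obtain ⟨p1, hp1, hcp1⟩ := hrb (c q0)
    have hp1p0 : p1 ≠ p0 := by
      rintro rfl
      exact hne (hcp1.symm.trans hcp0)
    have hq0p1 : H.Adj q0 p1 := by
      rw [← SimpleGraph.mem_neighborFinset, e1, Finset.mem_erase]
      exact ⟨hp1p0, h.qp y hy p1 hp1⟩
    have hp1y : p1 ≠ y := by rintro rfl; exact (H.loopless.irrefl _ hp1)
    exact hc q0 p1 hq0p1 hq0y hp1y hcp1.symm
  exact hc q0 s hsq0 hq0y hsy hcq0

/-- If `|R| = 2` and the graph has at most 11 vertices, contradiction. -/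
lemma Two.false_aux (hH : Loc H) {y z r s : α} (h : Two H y z r s)
    (hcard : Fintype.card α ≤ 11) (hAs : ∀ a, H.Adj y a → a ≠ z → ¬ H.Adj a s) : False := by
  have hAr : ∀ a, H.Adj y a → a ≠ z → H.Adj a r := by
    intro a h1 h2
    rcases h.adj_or hH h1 h2 with h3 | h3
    · exact h3
    · exact (hAs a h1 h2 h3).elim
  have hBr : ∀ b, H.Adj z b → b ≠ y → ¬ H.Adj b r := by
    intro b h1 h2 h3
    have h4 := h.swapyz.two_le hH h1 h3
    obtain ⟨a, ha⟩ := Finset.card_pos.mp (by omega : 0 < (univ.filter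
      (fun a => H.Adj y a ∧ a ≠ z ∧ H.Adj a s)).card)
    rw [Finset.mem_filter] at ha
    exact hAs a ha.2.1 ha.2.2.1 ha.2.2.2
  have hBs : ∀ b, H.Adj z b → b ≠ y → H.Adj b s := by
    intro b h1 h2
    rcases h.swapyz.adj_or hH h1 h2 with h3 | h3
    · exact (hBr b h1 h2 h3).elim
    · exact h3
  have hsN : s ∉ H.neighborFinset y := by rw [SimpleGraph.mem_neighborFinset]; exact h.ys
  have hrN : r ∉ H.neighborFinset z := by rw [SimpleGraph.mem_neighborFinset]; exact h.zr
  have hbip : Bip H (insert s (H.neighborFinset y)) (insert r (H.neighborFinset z)) := by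
    constructor
    · intro p hp v hv
      rw [Finset.mem_insert, SimpleGraph.mem_neighborFinset] at hp ⊢
      rcases hp with rfl | hp
      · rcases h.cov v with h3 | h3 | h3 | h3
        · by_cases hvz : v = z
          · subst hvz; exact (h.zs hv.symm).elim
          · exact (hAs v h3 hvz hv.symm).elim
        · right; exact h3
        · left; exact h3
        · subst h3; exact (H.loopless.irrefl _ hv).elim
      · rcases h.cov v with h3 | h3 | h3 | h3
        · exact (hH.tf y p v hp hv h3).elim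
        · right; exact h3
        · left; exact h3
        · subst h3
          by_cases hpz : p = z
          · subst hpz; exact (h.zs hv).elim
          · exact (hAs p hp hpz hv).elim
    · intro q hq v hv
      rw [Finset.mem_insert, SimpleGraph.mem_neighborFinset] at hq ⊢
      rcases hq with rfl | hq
      · rcases h.cov v with h3 | h3 | h3 | h3
        · right; exact h3
        · by_cases hvy : v = y
          · subst hvy; exact (h.yr hv.symm).elim
          · exact (hBr v h3 hvy hv.symm).elim
        · subst h3; exact (H.loopless.irrefl _ hv).elim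
        · left; exact h3
      · rcases h.cov v with h3 | h3 | h3 | h3
        · right; exact h3
        · exact (hH.tf z q v hq hv h3).elim
        · subst h3
          by_cases hqy : q = y
          · subst hqy; exact (h.yr hv).elim
          · exact (hBr q hq hqy hv).elim
        · left; exact h3
  have hPc : (insert s (H.neighborFinset y)).card = (H.neighborFinset y).card + 1 :=
    Finset.card_insert_of_notMem hsN
  have hQc : (insert r (H.neighborFinset z)).card = (H.neighborFinset z).card + 1 :=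
    Finset.card_insert_of_notMem hrN
  have h4y := hH.d4 y
  have h4z := hH.d4 z
  have hsum := deg_add hH h.yz
  have hboth : (H.neighborFinset y).card = 4 ∧ (H.neighborFinset z).card = 4 := by
    by_cases hz4 : (H.neighborFinset z).card = 4
    · have := hbip.card_le hH (by omega) (by omega)
      exact ⟨by omega, hz4⟩
    · have hy4 : (H.neighborFinset y).card = 4 := by omega
      have := hbip.swap.card_le hH (by omega) (by omega)
      exact ⟨hy4, by omega⟩
  refine hbip.false hH (by omega) (by omega) (y := y) (s := s) ?_ ?_ h.ys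
  · rw [Finset.mem_insert, SimpleGraph.mem_neighborFinset]; right; exact h.yz.symm
  · exact Finset.mem_insert_self _ _

lemma Two.false (hH : Loc H) {y z r s : α} (h : Two H y z r s)
    (hcard : Fintype.card α ≤ 11) : False := by
  by_cases h1 : ∀ a, H.Adj y a → a ≠ z → ¬ H.Adj a s
  · exact h.false_aux hH hcard h1
  by_cases h2 : ∀ a, H.Adj y a → a ≠ z → ¬ H.Adj a r
  · exact h.swaprs.false_aux hH hcard h2
  push Not at h1 h2
  obtain ⟨a, ha1, ha2, ha3⟩ := h1
  obtain ⟨b, hb1, hb2, hb3⟩ := h2
  have e1 := h.two_le hH hb1 hb3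
  have e2 := h.swaprs.two_le hH ha1 ha3
  obtain ⟨a', ha'⟩ := Finset.card_pos.mp (by omega : 0 < (univ.filter
      (fun b => H.Adj z b ∧ b ≠ y ∧ H.Adj b s)).card)
  obtain ⟨b', hb'⟩ := Finset.card_pos.mp (by omega : 0 < (univ.filter
      (fun b => H.Adj z b ∧ b ≠ y ∧ H.Adj b r)).card)
  rw [Finset.mem_filter] at ha' hb'
  have e3 := h.swapyz.two_le hH hb'.2.1 hb'.2.2.2
  have e4 := h.swapyz.swaprs.two_le hH ha'.2.1 ha'.2.2.2
  have f1 := h.five_le hH e4 e3
  have f2 := h.swapyz.five_le hH e2 e1
  have := deg_add hH h.yz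
  omega

lemma rest_three (hH : Loc H) {y z : α} (hyz : H.Adj y z) (hcard : Fintype.card α ≤ 11) :
    3 ≤ (Rst H y z).card := by
  by_contra hcon
  have h2 := rest_two hH hyz
  have h3 : (Rst H y z).card = 2 := by omega
  obtain ⟨r, s, hrs, hR⟩ := Finset.card_eq_two.mp h3
  have hr : r ∈ Rst H y z := by rw [hR]; simp
  have hs : s ∈ Rst H y z := by rw [hR]; simp
  simp only [Rst, Finset.mem_filter, Finset.mem_univ, true_and] at hr hs
  refine Two.false (H := H) hH (y := y) (z := z) (r := r) (s := s)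
    ⟨hyz, ?_, hr.1, hr.2, hs.1, hs.2, hrs⟩ hcard
  intro v
  by_cases h4 : H.Adj y v
  · left; exact h4
  by_cases h5 : H.Adj z v
  · right; left; exact h5
  have h6 : v ∈ Rst H y z := by
    simp only [Rst, Finset.mem_filter, Finset.mem_univ, true_and]; exact ⟨h4, h5⟩
  rw [hR, Finset.mem_insert, Finset.mem_singleton] at h6
  tauto

/-- (A): at least 11 vertices. -/
theorem eleven_le (hH : Loc H) [Nonempty α] : 11 ≤ Fintype.card α := by
  by_contra hcon
  obtain ⟨y⟩ := (inferInstance : Nonempty α)
  obtain ⟨z, hyz, -⟩ := exists_mem_ne hH y y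
  have h1 := card_split hH hyz
  have h2 := rest_three hH hyz (by omega)
  have h3 := hH.d4 y
  have h4 := hH.d4 z
  omega

/-- (B): if there are exactly 11 vertices, the graph is 4-regular. -/
theorem regular_of_card (hH : Loc H) (hc : Fintype.card α = 11) (y : α) :
    (H.neighborFinset y).card = 4 := by
  obtain ⟨z, hyz, -⟩ := exists_mem_ne hH y y
  have h1 := card_split hH hyz
  have h2 := rest_three hH hyz (by omega)
  have h3 := hH.d4 y
  have h4 := hH.d4 z
  omega

/-- (D): the degree sum is at most `d(d-2)/2`. -/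
theorem sum_deg_le (hH : Loc H) :
    2 * ∑ v, (H.neighborFinset v).card ≤ Fintype.card α * (Fintype.card α - 2) := by
  set d : α → ℕ := fun v => (H.neighborFinset v).card with hd
  set S := ∑ v, d v with hS
  have h1 : ∑ v, d v ^ 2 = ∑ v, ∑ u ∈ H.neighborFinset v, d v := by
    apply Finset.sum_congr rfl
    intro v _
    rw [Finset.sum_const, smul_eq_mul, sq]
  have h2 : ∑ v, ∑ u ∈ H.neighborFinset v, d u = ∑ v, ∑ u ∈ H.neighborFinset v, d v := by
    rw [Finset.sum_comm' (t' := univ) (s' := fun u => H.neighborFinset u)]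
    intro u v
    simp only [Finset.mem_univ, true_and, SimpleGraph.mem_neighborFinset, and_true]
    exact ⟨fun h => h.symm, fun h => h.symm⟩
  have h3 : ∑ v, ∑ u ∈ H.neighborFinset v, (d v + d u) ≤ (Fintype.card α - 2) * S := by
    rw [hS, Finset.mul_sum]
    apply Finset.sum_le_sum
    intro v _
    calc ∑ u ∈ H.neighborFinset v, (d v + d u)
        ≤ ∑ u ∈ H.neighborFinset v, (Fintype.card α - 2) := by
          apply Finset.sum_le_sum
          intro u hu
          rw [SimpleGraph.mem_neighborFinset] at hu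
          have := deg_add hH hu
          simp only [hd]
          omega
      _ = (Fintype.card α - 2) * d v := by
          rw [Finset.sum_const, smul_eq_mul, mul_comm]
  have h4 : 2 * ∑ v, d v ^ 2 ≤ (Fintype.card α - 2) * S := by
    have : ∑ v, ∑ u ∈ H.neighborFinset v, (d v + d u) = 2 * ∑ v, d v ^ 2 := by
      simp only [Finset.sum_add_distrib]
      rw [h2, h1, two_mul]
    omega
  have h5 : S ^ 2 ≤ Fintype.card α * ∑ v, d v ^ 2 := by
    have := sq_sum_le_card_mul_sum_sq (s := (univ : Finset α)) (f := d)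
    rwa [Finset.card_univ] at this
  by_cases hS0 : S = 0
  · rw [hS0]; simp
  have hSpos : 0 < S := Nat.pos_of_ne_zero hS0
  have h6 : (2 * S) * S ≤ (Fintype.card α * (Fintype.card α - 2)) * S := by
    calc (2 * S) * S = 2 * S ^ 2 := by ring
      _ ≤ 2 * (Fintype.card α * ∑ v, d v ^ 2) := Nat.mul_le_mul_left _ h5
      _ = Fintype.card α * (2 * ∑ v, d v ^ 2) := by ring
      _ ≤ Fintype.card α * ((Fintype.card α - 2) * S) := Nat.mul_le_mul_left _ h4
      _ = _ := by ring
  exact Nat.le_of_mul_le_mul_right h6 hSpos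

/-- (E): a total dominating set has at least three elements. -/
theorem three_le_of_total (hH : Loc H) [Nonempty α] (D : Finset α)
    (hD : ∀ y, ∃ v ∈ D, H.Adj y v) : 3 ≤ D.card := by
  by_contra hcon
  obtain ⟨y0⟩ := (inferInstance : Nonempty α)
  obtain ⟨a, ha, -⟩ := hD y0
  obtain ⟨b, hb, hab⟩ := hD a
  have hD2 : D ⊆ {a, b} := by
    have h1 : ({a, b} : Finset α) ⊆ D := by
      intro v hv
      rw [Finset.mem_insert, Finset.mem_singleton] at hv
      rcases hv with rfl | rfl <;> assumption
    have h2 : ({a, b} : Finset α).card = 2 := Finset.card_pair hab.ne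
    have h3 : ({a, b} : Finset α) = D := Finset.eq_of_subset_of_card_le h1 (by omega)
    rw [h3]
  have hdom : ∀ y, H.Adj a y ∨ H.Adj b y := by
    intro y
    obtain ⟨v, hv, hyv⟩ := hD y
    have := hD2 hv
    rw [Finset.mem_insert, Finset.mem_singleton] at this
    rcases this with rfl | rfl
    · left; exact hyv.symm
    · right; exact hyv.symm
  obtain ⟨y, hay, hyb⟩ := exists_mem_ne hH a b
  obtain ⟨v, hv1, hv2⟩ := hH.ac y b hyb
  rcases hdom v with h | h
  · exact hH.tf a y v hay hv1 h
  · exact hv2 h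

end Pool.Agent.H15.DC
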