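import Mathlib
import Pool.Agent.H15.DC.Local

/-!
# `K_4`-free double-critical 6-chromatic graphs: global part.
-/

set_option autoImplicit false

namespace Pool.Agent.H15.DC

open Finset Classical

variable {V : Type*} [Fintype V] {G : SimpleGraph V}

/-- The properties of a `K_4`-free double-critical 6-chromatic graph that are used. -/
structure Hyp (G : SimpleGraph V) : Prop where
  k4 : ∀ a b c d, G.Adj a b → G.Adj a c → G.Adj a d → G.Adj b c → G.Adj b d → G.Adj c d → False
  col : ∀ x y, G.Adj x y → ∃ c : V → Fin 4, ∀ u v, G.Adj u v → u ≠ x → u ≠ y → v ≠ x → v ≠ y →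
    c u ≠ c v
  no5 : ∀ c : V → Fin 5, ∃ u v, G.Adj u v ∧ c u = c v

/-- Every colour class of `G - x - y` contains a common neighbour of `x` and `y`. -/
lemma Hyp.rainbow (hG : Hyp G) {x y : V} (hxy : G.Adj x y) (c : V → Fin 4)
    (hc : ∀ u v, G.Adj u v → u ≠ x → u ≠ y → v ≠ x → v ≠ y → c u ≠ c v) (i : Fin 4) :
    ∃ v, G.Adj x v ∧ G.Adj y v ∧ c v = i := by
  by_contra hcon
  push Not at hcon
  let c' : V → Fin 5 := fun v =>
    if v = x then Fin.last 4 else if v = y then i.castSucc else
      if c v = i ∧ ¬ G.Adj x v then Fin.last 4 else (c v).castSucc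
  obtain ⟨u, v, huv, he⟩ := hG.no5 c'
  have hne : x ≠ y := hxy.ne
  have hlast : ∀ j : Fin 4, j.castSucc ≠ Fin.last 4 := fun j => (Fin.castSucc_lt_last j).ne
  -- symmetric helper
  have key : ∀ u v, G.Adj u v → c' u = c' v → False := by
    -- colour of x against others
    have hx : ∀ v, G.Adj x v → c' x = c' v → False := by
      intro v hv h
      have hvx : v ≠ x := hv.ne'
      simp only [c', if_pos rfl, if_neg hvx] at h
      by_cases hvy : v = y
      · simp only [if_pos hvy] at h
        exact hlast _ h.symm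
      · simp only [if_neg hvy] at h
        rw [if_neg (by tauto)] at h
        exact hlast _ h.symm
    have hy : ∀ v, v ≠ x → G.Adj y v → c' y = c' v → False := by
      intro v hvx hv h
      have hvy : v ≠ y := hv.ne'
      simp only [c', if_neg hne.symm, if_pos rfl, if_neg hvx, if_neg hvy] at h
      by_cases hcv : c v = i ∧ ¬ G.Adj x v
      · rw [if_pos hcv] at h
        exact hlast _ h
      · rw [if_neg hcv] at h
        have h2 : i = c v := Fin.castSucc_injective _ h
        have h3 : G.Adj x v := by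
          by_contra h3
          exact hcv ⟨h2.symm, h3⟩
        exact hcon v h3 hv h2.symm
    intro u v huv h
    by_cases hux : u = x
    · subst hux; exact hx v huv h
    by_cases hvx : v = x
    · subst hvx; exact hx u huv.symm h.symm
    by_cases huy : u = y
    · subst huy; exact hy v hvx huv h
    by_cases hvy : v = y
    · subst hvy; exact hy u hux huv.symm h.symm
    have hcuv := hc u v huv hux huy hvx hvy
    simp only [c', if_neg hux, if_neg huy, if_neg hvx, if_neg hvy] at h
    by_cases h1 : c u = i ∧ ¬ G.Adj x u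
    · by_cases h2 : c v = i ∧ ¬ G.Adj x v
      · exact hcuv (h1.1.trans h2.1.symm)
      · rw [if_pos h1, if_neg h2] at h
        exact hlast _ h.symm
    · by_cases h2 : c v = i ∧ ¬ G.Adj x v
      · rw [if_neg h1, if_pos h2] at h
        exact hlast _ h
      · rw [if_neg h1, if_neg h2] at h
        exact hcuv (Fin.castSucc_injective _ h)
  exact key u v huv he

/-- No third vertex is adjacent to all common neighbours of an edge. -/
lemma Hyp.notAll (hG : Hyp G) {x y u : V} (hxy : G.Adj x y) (hux : u ≠ x) (huy : u ≠ y) :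
    ∃ v, G.Adj x v ∧ G.Adj y v ∧ ¬ G.Adj u v := by
  obtain ⟨c, hc⟩ := hG.col x y hxy
  obtain ⟨v, h1, h2, h3⟩ := hG.rainbow hxy c hc (c u)
  exact ⟨v, h1, h2, fun h => hc u v h hux huy h1.ne' h2.ne' h3.symm⟩

/-- The common neighbourhood. -/
noncomputable def C (G : SimpleGraph V) (x y : V) : Finset V :=
  G.neighborFinset x ∩ G.neighborFinset y

lemma mem_C {x y v : V} : v ∈ C G x y ↔ G.Adj x v ∧ G.Adj y v := by
  simp [C, SimpleGraph.mem_neighborFinset]

lemma Hyp.four_le (hG : Hyp G) {x y : V} (hxy : G.Adj x y) : 4 ≤ (C G x y).card := by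
  obtain ⟨c, hc⟩ := hG.col x y hxy
  have h1 : (univ : Finset (Fin 4)) ⊆ (C G x y).image c := by
    intro i _
    obtain ⟨v, h1, h2, h3⟩ := hG.rainbow hxy c hc i
    exact Finset.mem_image.mpr ⟨v, mem_C.mpr ⟨h1, h2⟩, h3⟩
  have h2 := (Finset.card_le_card h1).trans Finset.card_image_le
  simpa using h2

/-- the neighbourhood graph -/
abbrev Nb (G : SimpleGraph V) (x : V) : SimpleGraph {v // G.Adj x v} :=
  G.comap (Subtype.val : {v // G.Adj x v} → V)

lemma card_nb (x : V) (y : {v // G.Adj x v}) [Fintype ((Nb G x).neighborSet y)] :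
    ((Nb G x).neighborFinset y).card = (C G x y.1).card := by
  have h : ((Nb G x).neighborFinset y).map ⟨Subtype.val, Subtype.val_injective⟩ = C G x y.1 := by
    ext v
    simp only [Finset.mem_map, SimpleGraph.mem_neighborFinset, SimpleGraph.comap_adj,
      Function.Embedding.coeFn_mk, mem_C]
    constructor
    · rintro ⟨w, hw, rfl⟩
      exact ⟨w.2, hw⟩
    · rintro ⟨h1, h2⟩
      exact ⟨⟨v, h1⟩, h2, rfl⟩
  rw [← h, Finset.card_map]

lemma Hyp.loc (hG : Hyp G) (x : V) : Loc (Nb G x) where
  tf := by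
    intro a b c h1 h2 h3
    exact hG.k4 x a.1 b.1 c.1 a.2 b.2 c.2 h1 h3 h2
  d4 := by
    intro a
    rw [card_nb]
    exact hG.four_le a.2
  ac := by
    intro a b hab
    have hba : b.1 ≠ a.1 := fun h => hab (Subtype.ext h.symm)
    obtain ⟨v, h1, h2, h3⟩ := hG.notAll (u := b.1) a.2 b.2.ne' hba
    exact ⟨⟨v, h1⟩, h2, h3⟩
  rb := by
    intro a
    obtain ⟨c, hc⟩ := hG.col x a.1 a.2
    refine ⟨fun v => c v.1, ?_, ?_⟩
    · intro u v huv hu hv
      exact hc u.1 v.1 huv u.2.ne' (fun h => hu (Subtype.ext h)) v.2.ne' (fun h => hv (Subtype.ext h))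
    · intro i
      obtain ⟨v, h1, h2, h3⟩ := hG.rainbow a.2 c hc i
      exact ⟨⟨v, h1⟩, h2, h3⟩

lemma card_nbr (x : V) : Fintype.card {v // G.Adj x v} = (G.neighborFinset x).card := by
  rw [Fintype.card_subtype]
  congr 1
  ext v
  simp [SimpleGraph.mem_neighborFinset]

/-- minimum degree at least 11 -/
theorem Hyp.eleven_le (hG : Hyp G) (x : V) (hx : ∃ y, G.Adj x y) :
    11 ≤ (G.neighborFinset x).card := by
  obtain ⟨y, hy⟩ := hx
  have : Nonempty {v // G.Adj x v} := ⟨⟨y, hy⟩⟩
  rw [← card_nbr]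
  exact DC.eleven_le (hG.loc x)

lemma sum_nb (x : V) :
    ∑ v : {v // G.Adj x v}, (C G x v.1).card
      = ∑ y ∈ G.neighborFinset x, (C G x y).card := by
  rw [← Finset.sum_subtype (G.neighborFinset x) (p := fun v => G.Adj x v)
    (fun v => by rw [SimpleGraph.mem_neighborFinset]) (fun y => (C G x y).card)]

/-- The vertices outside the closed neighbourhood miss at least three neighbours of `x`. -/
lemma Hyp.miss_three (hG : Hyp G) {x w : V} (hx : ∃ y, G.Adj x y) (hwx : w ≠ x)
    (hadj : ¬ G.Adj x w) : (C G x w).card + 3 ≤ (G.neighborFinset x).card := by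
  obtain ⟨y, hy⟩ := hx
  have : Nonempty {v // G.Adj x v} := ⟨⟨y, hy⟩⟩
  let D : Finset {v // G.Adj x v} := univ.filter (fun v => ¬ G.Adj w v.1)
  have hD : 3 ≤ D.card := by
    apply three_le_of_total (hG.loc x)
    intro z
    have hwz : w ≠ z.1 := by
      rintro rfl
      exact hadj z.2
    obtain ⟨v, h1, h2, h3⟩ := hG.notAll (u := w) z.2 hwx hwz
    exact ⟨⟨v, h1⟩, by simp only [D, Finset.mem_filter, Finset.mem_univ, true_and]; exact h3, h2⟩
  have hsub : C G x w ∪ D.map ⟨Subtype.val, Subtype.val_injective⟩ ⊆ G.neighborFinset x := by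
    intro v hv
    rw [Finset.mem_union, mem_C, Finset.mem_map] at hv
    rw [SimpleGraph.mem_neighborFinset]
    rcases hv with hv | ⟨u, _, rfl⟩
    · exact hv.1
    · exact u.2
  have hdis : Disjoint (C G x w) (D.map ⟨Subtype.val, Subtype.val_injective⟩) := by
    rw [Finset.disjoint_left]
    intro v hv hv2
    rw [mem_C] at hv
    rw [Finset.mem_map] at hv2
    obtain ⟨u, hu, rfl⟩ := hv2
    simp only [D, Finset.mem_filter, Finset.mem_univ, true_and] at hu
    exact hu hv.2
  have h1 := Finset.card_le_card hsub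
  rw [Finset.card_union_of_disjoint hdis, Finset.card_map] at h1
  omega

lemma double_count (x : V) :
    ∑ y ∈ G.neighborFinset x, (G.neighborFinset y).card = ∑ v, (C G x v).card := by
  have h1 : ∀ y, (G.neighborFinset y).card = ∑ v, if G.Adj y v then 1 else 0 := by
    intro y
    rw [Finset.sum_boole, Nat.cast_id]
    congr 1
    ext v
    simp [SimpleGraph.mem_neighborFinset]
  have h2 : ∀ v, (C G x v).card = ∑ y ∈ G.neighborFinset x, if G.Adj y v then 1 else 0 := by
    intro v
    rw [Finset.sum_boole, Nat.cast_id]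
    congr 1
    ext y
    simp only [mem_C, Finset.mem_filter, SimpleGraph.mem_neighborFinset]
    exact ⟨fun h => ⟨h.1, h.2.symm⟩, fun h => ⟨h.1, h.2.symm⟩⟩
  rw [Finset.sum_congr rfl (fun y _ => h1 y), Finset.sum_congr rfl (fun v _ => h2 v),
    Finset.sum_comm]

/-- The number of vertices is at least 21. -/
theorem Hyp.order (hG : Hyp G) (hdeg : ∀ x : V, ∃ y, G.Adj x y) [Nonempty V] :
    21 ≤ Fintype.card V := by
  obtain ⟨x, -, hmin⟩ := Finset.exists_min_image (univ : Finset V)
    (fun v => (G.neighborFinset v).card) Finset.univ_nonempty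
  set d := (G.neighborFinset x).card with hd
  have hd11 : 11 ≤ d := hG.eleven_le x (hdeg x)
  set n := Fintype.card V with hn
  -- the sum over all vertices
  have h1 : ∑ y ∈ G.neighborFinset x, (G.neighborFinset y).card = ∑ v, (C G x v).card :=
    double_count x
  have h2 : d * d ≤ ∑ y ∈ G.neighborFinset x, (G.neighborFinset y).card := by
    calc d * d = ∑ y ∈ G.neighborFinset x, d := by rw [Finset.sum_const, smul_eq_mul]
      _ ≤ _ := Finset.sum_le_sum (fun y _ => hmin y (Finset.mem_univ y))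
  -- split the vertex set
  set W : Finset V := univ.filter (fun v => v ≠ x ∧ ¬ G.Adj x v) with hW
  have hxN : x ∉ G.neighborFinset x := by
    rw [SimpleGraph.mem_neighborFinset]; exact G.loopless.irrefl x
  have hdis : Disjoint (insert x (G.neighborFinset x)) W := by
    rw [Finset.disjoint_left]
    intro v hv hv2
    rw [Finset.mem_insert, SimpleGraph.mem_neighborFinset] at hv
    rw [hW, Finset.mem_filter] at hv2
    tauto
  have hun : (univ : Finset V) = insert x (G.neighborFinset x) ∪ W := by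
    ext v
    simp only [Finset.mem_univ, Finset.mem_union, Finset.mem_insert,
      SimpleGraph.mem_neighborFinset, hW, Finset.mem_filter, true_and, true_iff]
    tauto
  have hcW : n = d + 1 + W.card := by
    rw [hn, ← Finset.card_univ, hun, Finset.card_union_of_disjoint hdis,
      Finset.card_insert_of_notMem hxN]
  have h3 : ∑ v, (C G x v).card = (C G x x).card + ∑ y ∈ G.neighborFinset x, (C G x y).card
      + ∑ w ∈ W, (C G x w).card := by
    rw [hun, Finset.sum_union hdis, Finset.sum_insert hxN]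
  have h4 : (C G x x).card = d := by
    rw [C, Finset.inter_self]
  have h5 : ∑ w ∈ W, (C G x w).card ≤ W.card * (d - 3) := by
    calc ∑ w ∈ W, (C G x w).card ≤ ∑ w ∈ W, (d - 3) := by
          apply Finset.sum_le_sum
          intro w hw
          rw [hW, Finset.mem_filter] at hw
          have := hG.miss_three (hdeg x) hw.2.1 hw.2.2
          omega
      _ = W.card * (d - 3) := by rw [Finset.sum_const, smul_eq_mul]
  have h6 : 2 * ∑ y ∈ G.neighborFinset x, (C G x y).card ≤ d * (d - 2) := by
    have := sum_deg_le (hG.loc x)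
    simp only [card_nb] at this
    rw [sum_nb, card_nbr] at this
    exact this
  have h7 : d = 11 → ∑ y ∈ G.neighborFinset x, (C G x y).card = 44 := by
    intro hd'
    rw [← sum_nb]
    have : ∀ v : {v // G.Adj x v}, (C G x v.1).card = 4 := by
      intro v
      have h := regular_of_card (hG.loc x) (by rw [card_nbr]; exact hd') v
      rwa [card_nb] at h
    rw [Finset.sum_congr rfl (fun v _ => this v), Finset.sum_const, Finset.card_univ, card_nbr,
      ← hd, hd']
    rfl
  by_contra hcon
  have hn20 : n ≤ 20 := by omega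
  set S := ∑ y ∈ G.neighborFinset x, (C G x y).card with hS
  set T := ∑ w ∈ W, (C G x w).card with hT
  have h8 : d * d ≤ d + S + T := by
    rw [h3, h4] at h1
    rw [h1] at h2
    exact h2
  have hWc : W.card ≤ 19 - d := by omega
  have hd19 : d ≤ 19 := by omega
  have h9 : T ≤ (19 - d) * (d - 3) := h5.trans (Nat.mul_le_mul_right _ hWc)
  clear_value S T d n
  clear h1 h2 h3 h5
  interval_cases d
  · have := h7 rfl
    omega
  all_goals omega

/-- An independent set with five vertices. -/
theorem Hyp.indep (hG : Hyp G) {x y : V} (hxy : G.Adj x y) (hn : 19 ≤ Fintype.card V) :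
    ∃ s : Finset V, s.card = 5 ∧ ∀ u ∈ s, ∀ v ∈ s, ¬ G.Adj u v := by
  obtain ⟨c, hc⟩ := hG.col x y hxy
  let U : Finset V := (univ.erase x).erase y
  have hU : U.card = Fintype.card V - 2 := by
    rw [Finset.card_erase_of_mem (Finset.mem_erase.mpr ⟨hxy.ne', Finset.mem_univ y⟩),
      Finset.card_erase_of_mem (Finset.mem_univ x), Finset.card_univ]
    omega
  obtain ⟨i, -, hi⟩ := Finset.exists_lt_card_fiber_of_mul_lt_card_of_maps_to
    (s := U) (t := (univ : Finset (Fin 4))) (f := c) (n := 4) (fun _ _ => Finset.mem_univ _)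
    (by rw [Finset.card_univ, Fintype.card_fin, hU]; omega)
  obtain ⟨s, hs, hs5⟩ := Finset.exists_subset_card_eq (s := U.filter (fun v => c v = i)) (n := 5)
    (by omega)
  refine ⟨s, hs5, ?_⟩
  intro u hu v hv huv
  have hu' := hs hu
  have hv' := hs hv
  simp only [U, Finset.mem_filter, Finset.mem_erase, Finset.mem_univ, and_true] at hu' hv'
  exact hc u v huv hu'.1.2 hu'.1.1 hv'.1.2 hv'.1.1 (hu'.2.trans hv'.2.symm)

/-- Deleting a triangle leaves a graph that is not 3-colourable. -/
theorem Hyp.triangle (hG : Hyp G) {x y z : V} (hxy : G.Adj x y) (hxz : G.Adj x z)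
    (hyz : G.Adj y z) (c : V → Fin 3)
    (hc : ∀ u v, G.Adj u v → u ≠ x → u ≠ y → u ≠ z → v ≠ x → v ≠ y → v ≠ z → c u ≠ c v) :
    False := by
  -- colours: `0,1,2` for `x,y,z` and class 0; `3,4` for classes 1, 2
  let c' : V → Fin 5 := fun v =>
    if v = x then 0 else if v = y then 1 else if v = z then 2 else
      if c v = 1 then 3 else if c v = 2 then 4 else
        if ¬ G.Adj x v then 0 else if ¬ G.Adj y v then 1 else 2
  obtain ⟨u, v, huv, he⟩ := hG.no5 c'
  have hxy' := hxy.ne
  have hxz' := hxz.ne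
  have hyz' := hyz.ne
  have hx0 : c' x = 0 := by simp [c']
  have hy1 : c' y = 1 := by simp [c', hxy'.symm]
  have hz2 : c' z = 2 := by simp [c', hxz'.symm, hyz'.symm]
  have hgen : ∀ v, v ≠ x → v ≠ y → v ≠ z → c' v = 
      if c v = 1 then 3 else if c v = 2 then 4 else
        if ¬ G.Adj x v then 0 else if ¬ G.Adj y v then 1 else 2 := by
    intro v h1 h2 h3
    simp only [c', if_neg h1, if_neg h2, if_neg h3]
  have hfin : ∀ i : Fin 3, i = 0 ∨ i = 1 ∨ i = 2 := by decide
  have hX : ∀ v, v ≠ x → v ≠ y → v ≠ z → c' v = 0 → ¬ G.Adj x v ∧ c v = 0 := by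
    intro v h1 h2 h3 h4
    rw [hgen v h1 h2 h3] at h4
    rcases hfin (c v) with h | h | h
    · simp only [h] at h4
      by_cases h5 : G.Adj x v
      · by_cases h6 : G.Adj y v <;> simp [h5, h6] at h4
      · exact ⟨h5, h⟩
    · simp [h] at h4
    · simp [h] at h4
  have hY : ∀ v, v ≠ x → v ≠ y → v ≠ z → c' v = 1 → ¬ G.Adj y v ∧ c v = 0 := by
    intro v h1 h2 h3 h4
    rw [hgen v h1 h2 h3] at h4
    rcases hfin (c v) with h | h | h
    · simp only [h] at h4
      by_cases h5 : G.Adj x v
      · by_cases h6 : G.Adj y v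
        · simp [h5, h6] at h4
        · exact ⟨h6, h⟩
      · simp [h5] at h4
    · simp [h] at h4
    · simp [h] at h4
  have hZ : ∀ v, v ≠ x → v ≠ y → v ≠ z → c' v = 2 → G.Adj x v ∧ G.Adj y v ∧ c v = 0 := by
    intro v h1 h2 h3 h4
    rw [hgen v h1 h2 h3] at h4
    rcases hfin (c v) with h | h | h
    · simp only [h] at h4
      by_cases h5 : G.Adj x v
      · by_cases h6 : G.Adj y v
        · exact ⟨h5, h6, h⟩
        · simp [h5, h6] at h4
      · simp [h5] at h4
    · simp [h] at h4
    · simp [h] at h4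
  have h34 : ∀ v, v ≠ x → v ≠ y → v ≠ z → c v = 1 → c' v = 3 := by
    intro v h1 h2 h3 h4; rw [hgen v h1 h2 h3]; simp [h4]
  have h44 : ∀ v, v ≠ x → v ≠ y → v ≠ z → c v = 2 → c' v = 4 := by
    intro v h1 h2 h3 h4; rw [hgen v h1 h2 h3]; simp [h4]
  -- pairs containing a vertex of the triangle
  have key1 : ∀ v, G.Adj x v → c' x ≠ c' v := by
    intro v hv h
    rw [hx0] at h
    by_cases h1 : v = y
    · subst h1; rw [hy1] at h; exact absurd h (by decide)
    by_cases h2 : v = z
    · subst h2; rw [hz2] at h; exact absurd h (by decide)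
    exact (hX v hv.ne' h1 h2 h.symm).1 hv
  have key2 : ∀ v, v ≠ x → G.Adj y v → c' y ≠ c' v := by
    intro v hvx hv h
    rw [hy1] at h
    by_cases h2 : v = z
    · subst h2; rw [hz2] at h; exact absurd h (by decide)
    exact (hY v hvx hv.ne' h2 h.symm).1 hv
  have key3 : ∀ v, v ≠ x → v ≠ y → G.Adj z v → c' z ≠ c' v := by
    intro v hvx hvy hv h
    rw [hz2] at h
    obtain ⟨h5, h6, -⟩ := hZ v hvx hvy hv.ne' h.symm
    exact hG.k4 x y z v hxy hxz h5 hyz h6 hv
  by_cases hux : u = x
  · subst hux; exact key1 v huv he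
  by_cases hvx : v = x
  · subst hvx; exact key1 u huv.symm he.symm
  by_cases huy : u = y
  · subst huy; exact key2 v hvx huv he
  by_cases hvy : v = y
  · subst hvy; exact key2 u hux huv.symm he.symm
  by_cases huz : u = z
  · subst huz; exact key3 v hvx hvy huv he
  by_cases hvz : v = z
  · subst hvz; exact key3 u hux huy huv.symm he.symm
  apply hc u v huv hux huy huz hvx hvy hvz
  have hcases : ∀ v, v ≠ x → v ≠ y → v ≠ z →
      (c v = 0 ∧ (c' v = 0 ∨ c' v = 1 ∨ c' v = 2)) ∨ (c v = 1 ∧ c' v = 3) ∨ (c v = 2 ∧ c' v = 4) := by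
    intro v h1 h2 h3
    rcases hfin (c v) with h | h | h
    · left
      refine ⟨h, ?_⟩
      rw [hgen v h1 h2 h3]
      by_cases h5 : G.Adj x v
      · by_cases h6 : G.Adj y v <;> simp [h, h5, h6]
      · simp [h, h5]
    · right; left; exact ⟨h, h34 v h1 h2 h3 h⟩
    · right; right; exact ⟨h, h44 v h1 h2 h3 h⟩
  rcases hcases u hux huy huz with ⟨h1, h2⟩ | ⟨h1, h2⟩ | ⟨h1, h2⟩ <;>
  rcases hcases v hvx hvy hvz with ⟨h3, h4⟩ | ⟨h3, h4⟩ | ⟨h3, h4⟩
  · rw [h1, h3]
  · exfalso; rw [h4] at he; rcases h2 with h2 | h2 | h2 <;> rw [h2] at he <;> exact absurd he (by decide)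
  · exfalso; rw [h4] at he; rcases h2 with h2 | h2 | h2 <;> rw [h2] at he <;> exact absurd he (by decide)
  · exfalso; rw [h2] at he; rcases h4 with h4 | h4 | h4 <;> rw [h4] at he <;> exact absurd he (by decide)
  · rw [h1, h3]
  · exfalso; rw [h2, h4] at he; exact absurd he (by decide)
  · exfalso; rw [h2] at he; rcases h4 with h4 | h4 | h4 <;> rw [h4] at he <;> exact absurd he (by decide)
  · exfalso; rw [h2, h4] at he; exact absurd he (by decide)
  · rw [h1, h3]

/-- `Q` is 3-colourable. -/
def Col3 (G : SimpleGraph V) (Q : Finset V) : Prop :=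
  ∃ c : V → Fin 3, ∀ u ∈ Q, ∀ v ∈ Q, G.Adj u v → c u ≠ c v

/-- A subset of a neighbourhood that is not 3-colourable is the whole neighbourhood, and the
non-neighbours of `x` are independent. -/
lemma Hyp.eq_nbhd (hG : Hyp G) {x : V} {Q : Finset V} (hQ : Q ⊆ G.neighborFinset x)
    (hcol : ¬ Col3 G Q) :
    (∀ u v, u ≠ x → v ≠ x → u ∉ Q → v ∉ Q → ¬ G.Adj u v) ∧ Q = G.neighborFinset x := by
  have h1 : ∀ u v, u ≠ x → v ≠ x → u ∉ Q → v ∉ Q → ¬ G.Adj u v := by
    intro u v hux hvx hu hv huv
    obtain ⟨c, hc⟩ := hG.col u v huv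
    -- the colour of x does not occur on Q
    apply hcol
    have hne : ∀ q ∈ Q, c q ≠ c x := by
      intro q hq
      have hxq := hQ hq
      rw [SimpleGraph.mem_neighborFinset] at hxq
      refine hc q x hxq.symm ?_ ?_ hux.symm hvx.symm
      · rintro rfl; exact hu hq
      · rintro rfl; exact hv hq
    have hf : ∀ k : Fin 4, ∃ f : Fin 4 → Fin 3, ∀ i j, i ≠ k → j ≠ k → f i = f j → i = j := by
      decide
    obtain ⟨f, hf⟩ := hf (c x)
    refine ⟨fun v => f (c v), ?_⟩
    intro a ha b hb hab he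
    have := hf (c a) (c b) (hne a ha) (hne b hb) he
    refine hc a b hab ?_ ?_ ?_ ?_ this
    · rintro rfl; exact hu ha
    · rintro rfl; exact hv ha
    · rintro rfl; exact hu hb
    · rintro rfl; exact hv hb
  refine ⟨h1, ?_⟩
  apply Finset.Subset.antisymm hQ
  intro w hw
  by_contra hwQ
  rw [SimpleGraph.mem_neighborFinset] at hw
  -- a common neighbour of x and w
  obtain ⟨q, hq⟩ := Finset.card_pos.mp (by have := hG.four_le hw; omega : 0 < (C G x w).card)
  rw [mem_C] at hq
  have hqQ : q ∈ Q := by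
    by_contra hqQ
    exact h1 w q hw.ne' hq.1.ne' hwQ hqQ hq.2
  -- a common neighbour of w and q different from x
  have h2 : 0 < ((C G w q).erase x).card := by
    have h3 := hG.four_le hq.2
    have h4 := Finset.pred_card_le_card_erase (s := C G w q) (a := x)
    omega
  obtain ⟨v, hv⟩ := Finset.card_pos.mp h2
  rw [Finset.mem_erase, mem_C] at hv
  have hvQ : v ∈ Q := by
    by_contra hvQ
    exact h1 w v hw.ne' hv.1 hwQ hvQ hv.2.1
  have hxv := hQ hvQ
  rw [SimpleGraph.mem_neighborFinset] at hxv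
  exact hG.k4 x w q v hw hq.1 hxv hq.2 hv.2.1 hv.2.2

/-- Every neighbourhood is 3-colourable. -/
theorem Hyp.nbhd (hG : Hyp G) (x : V) : Col3 G (G.neighborFinset x) := by
  by_contra hcol
  obtain ⟨hind, -⟩ := hG.eq_nbhd (Finset.Subset.refl _) hcol
  -- the neighbourhood is nonempty
  have hne : (G.neighborFinset x).Nonempty := by
    by_contra hne
    rw [Finset.not_nonempty_iff_eq_empty] at hne
    apply hcol
    rw [hne]
    exact ⟨fun _ => 0, fun u hu => absurd hu (Finset.notMem_empty u)⟩
  obtain ⟨y, hy⟩ := hne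
  -- N(x) - y is 3-colourable
  have h1 : Col3 G ((G.neighborFinset x).erase y) := by
    by_contra h2
    obtain ⟨-, h3⟩ := hG.eq_nbhd (Finset.erase_subset _ _) h2
    rw [← h3] at hy
    exact Finset.notMem_erase _ _ hy
  obtain ⟨c, hc⟩ := h1
  let c' : V → Fin 5 := fun v =>
    if v = y then 3 else if G.Adj x v then (c v).castSucc.castSucc else 4
  obtain ⟨u, v, huv, he⟩ := hG.no5 c'
  have hyx : G.Adj x y := by rwa [SimpleGraph.mem_neighborFinset] at hy
  have hcc : ∀ i : Fin 3, (i.castSucc.castSucc : Fin 5) ≠ 3 ∧ (i.castSucc.castSucc : Fin 5) ≠ 4 := by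
    decide
  have key1 : ∀ v, v ≠ y → c' y ≠ c' v := by
    intro v hv h
    simp only [c', if_pos rfl, if_neg hv] at h
    by_cases h1 : G.Adj x v
    · rw [if_pos h1] at h; exact (hcc _).1 h.symm
    · rw [if_neg h1] at h; exact absurd h (by decide)
  by_cases huy : u = y
  · subst huy; exact key1 v huv.ne' he
  by_cases hvy : v = y
  · subst hvy; exact key1 u huv.ne he.symm
  simp only [c', if_neg huy, if_neg hvy] at he
  by_cases hu : G.Adj x u <;> by_cases hv : G.Adj x v
  · rw [if_pos hu, if_pos hv] at he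
    have h2 : c u = c v := Fin.castSucc_injective _ (Fin.castSucc_injective _ he)
    refine hc u ?_ v ?_ huv h2
    · rw [Finset.mem_erase, SimpleGraph.mem_neighborFinset]; exact ⟨huy, hu⟩
    · rw [Finset.mem_erase, SimpleGraph.mem_neighborFinset]; exact ⟨hvy, hv⟩
  · rw [if_pos hu, if_neg hv] at he
    exact (hcc _).2 he
  · rw [if_neg hu, if_pos hv] at he
    exact (hcc _).2 he.symm
  · by_cases hux : u = x
    · subst hux; exact hv huv
    by_cases hvx : v = x
    · subst hvx; exact hu huv.symm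
    refine hind u v hux hvx ?_ ?_ huv
    · rw [SimpleGraph.mem_neighborFinset]; exact hu
    · rw [SimpleGraph.mem_neighborFinset]; exact hv

end Pool.Agent.H15.DC
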