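import Mathlib
import Pool.Agent.H15.DC.Global

/-! From the definitions to the working hypotheses. -/

set_option autoImplicit false

namespace Pool.Agent.H15.DC

variable {V : Type*} [Fintype V] {G : SimpleGraph V}

theorem not_colorable_five (hchi : G.chromaticNumber = 6) : ¬ G.Colorable 5 := by
  intro h
  have h1 := SimpleGraph.chromaticNumber_le_iff_colorable.mpr h
  rw [hchi] at h1
  exact absurd h1 (by decide)

theorem hyp_of (hchi : G.chromaticNumber = 6)
    (hdc : ∀ x y : V, G.Adj x y →
      (G.induce {v : V | v ≠ x ∧ v ≠ y}).chromaticNumber = 4)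
    (hK4 : G.CliqueFree 4) : Hyp G := by
  classical
  have hno5 := not_colorable_five hchi
  have hcol4 : ∀ x y, G.Adj x y → (G.induce {v : V | v ≠ x ∧ v ≠ y}).Colorable 4 := by
    intro x y hxy
    apply SimpleGraph.chromaticNumber_le_iff_colorable.mp
    rw [hdc x y hxy]
    exact le_refl _
  refine ⟨?_, ?_, ?_⟩
  · intro a b c d hab hac had hbc hbd hcd
    apply hK4 {a, b, c, d}
    constructor
    · intro u hu v hv huv
      simp only [Finset.coe_insert, Finset.coe_singleton, Set.mem_insert_iff,
        Set.mem_singleton_iff] at hu hv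
      rcases hu with rfl | rfl | rfl | rfl <;> rcases hv with rfl | rfl | rfl | rfl <;>
        first | exact absurd rfl huv | assumption | (apply SimpleGraph.Adj.symm; assumption)
    · rw [Finset.card_insert_of_notMem, Finset.card_insert_of_notMem,
        Finset.card_insert_of_notMem, Finset.card_singleton]
      · rw [Finset.mem_singleton]; exact hcd.ne
      · rw [Finset.mem_insert, Finset.mem_singleton]; rintro (h | h)
        · exact hbc.ne h
        · exact hbd.ne h
      · rw [Finset.mem_insert, Finset.mem_insert, Finset.mem_singleton]; rintro (h | h | h)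
        · exact hab.ne h
        · exact hac.ne h
        · exact had.ne h
  · intro x y hxy
    obtain ⟨c⟩ := hcol4 x y hxy
    refine ⟨fun v => if h : v ≠ x ∧ v ≠ y then c ⟨v, h⟩ else 0, ?_⟩
    intro u v huv hux huy hvx hvy
    have hu : u ≠ x ∧ u ≠ y := ⟨hux, huy⟩
    have hv : v ≠ x ∧ v ≠ y := ⟨hvx, hvy⟩
    simp only [dif_pos hu, dif_pos hv]
    apply c.valid
    exact huv
  · intro c
    by_contra hcon
    push Not at hcon
    exact hno5 ⟨SimpleGraph.Coloring.mk c (fun {u v} huv => hcon u v huv)⟩

theorem exists_edge (hchi : G.chromaticNumber = 6) : ∃ x y, G.Adj x y := by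
  by_contra hcon
  push Not at hcon
  exact not_colorable_five hchi
    ⟨SimpleGraph.Coloring.mk (fun _ => (0 : Fin 5)) (fun {u v} huv => absurd huv (hcon u v))⟩

theorem exists_nbr (hconn : G.Connected) (hchi : G.chromaticNumber = 6) (x : V) :
    ∃ y, G.Adj x y := by
  obtain ⟨x0, y0, hxy0⟩ := exists_edge hchi
  have hnt : Nontrivial V := ⟨⟨x0, y0, hxy0.ne⟩⟩
  exact hconn.preconnected.exists_adj_of_nontrivial x

end Pool.Agent.H15.DC
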